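import Mathlib

/-!
# Every finite-dimensional Leibniz algebra comes from an affine algebraic rack

An affine algebraic rack over a field `k` is `Q = Spec A`, with `A` a commutative `k`-algebra of
finite type, together with the pullbacks `A → A ⊗ A` of the two operations and the evaluation
`A → k` at the unit, subject to the rack identities for points with values in every commutative
`k`-algebra. Its Leibniz algebra is `Der_k(A, k)` with `[D, E] = (D ⊗ E) ∘ ∇`.

We show that a Leibniz algebra over `k` is isomorphic to the Leibniz algebra of an affine algebraic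
rack if and only if it is finite-dimensional. For the witness take `A = k ⊕ q^*` with
`q^* · q^* = 0` (the first order neighbourhood of the origin in the affine space `q`) and
`x ▷ y = y + [x, y]`.
-/

set_option autoImplicit false

open scoped TensorProduct

universe u

namespace Pool.Agent.Results.MP_133c3f_al.AlgebraicIffFinite

/-- A (left) Leibniz algebra structure on the `k`-vector space `q`: a bilinear bracket with
`[x, [y, z]] = [[x, y], z] + [y, [x, z]]`. -/
structure LeibnizAlg (k q : Type u) [Field k] [AddCommGroup q] [Module k q] where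
  /-- the bracket -/
  br : q → q → q
  add_left : ∀ x y z, br (x + y) z = br x z + br y z
  add_right : ∀ x y z, br x (y + z) = br x y + br x z
  smul_left : ∀ (c : k) x y, br (c • x) y = c • br x y
  smul_right : ∀ (c : k) x y, br x (c • y) = c • br x y
  leibniz : ∀ x y z, br x (br y z) = br (br x y) z + br y (br x z)

/-- For an algebra map `N : A → A ⊗ A` and two points `x, y` of `Spec A` with values in `R`, the
point `N^*(x, y)`, that is `A → A ⊗ A → R`, where the second map is `a ⊗ b ↦ x a * y b`. -/
noncomputable def opPt {k A R : Type u} [Field k] [CommRing A] [Algebra k A] [CommRing R]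
    [Algebra k R] (N : A →ₐ[k] A ⊗[k] A) (x y : A →ₐ[k] R) : A →ₐ[k] R :=
  (Algebra.TensorProduct.productMap x y).comp N

/-- An affine algebraic rack `Q = Spec A` over `k`: the algebra `A` is of finite type, `nabla` and
`nablaInv` are the pullbacks of `▷` and `▷⁻¹`, `eps` is evaluation at the unit `e`, and the rack
identities hold for all points with values in any commutative `k`-algebra `R`. Here
`opPt nabla x y` is `x ▷ y` and `opPt nablaInv x y` is `x ▷⁻¹ y`. -/
structure AffineRack (k A : Type u) [Field k] [CommRing A] [Algebra k A] where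
  finiteType : Algebra.FiniteType k A
  /-- the pullback of `▷` -/
  nabla : A →ₐ[k] A ⊗[k] A
  /-- the pullback of `▷⁻¹` -/
  nablaInv : A →ₐ[k] A ⊗[k] A
  /-- evaluation at the unit `e` -/
  eps : A →ₐ[k] k
  inv_left : ∀ (R : Type u) [CommRing R] [Algebra k R] (x y : A →ₐ[k] R),
    opPt nablaInv (opPt nabla x y) x = y
  inv_right : ∀ (R : Type u) [CommRing R] [Algebra k R] (x y : A →ₐ[k] R),
    opPt nabla x (opPt nablaInv y x) = y
  selfDistrib : ∀ (R : Type u) [CommRing R] [Algebra k R] (x y z : A →ₐ[k] R),
    opPt nabla x (opPt nabla y z) = opPt nabla (opPt nabla x y) (opPt nabla x z)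
  selfDistribInv : ∀ (R : Type u) [CommRing R] [Algebra k R] (x y z : A →ₐ[k] R),
    opPt nablaInv (opPt nablaInv x y) z = opPt nablaInv (opPt nablaInv x z) (opPt nablaInv y z)
  unit_left : ∀ (R : Type u) [CommRing R] [Algebra k R] (x : A →ₐ[k] R),
    opPt nabla ((Algebra.ofId k R).comp eps) x = x
  unit_right : ∀ (R : Type u) [CommRing R] [Algebra k R] (x : A →ₐ[k] R),
    opPt nabla x ((Algebra.ofId k R).comp eps) = (Algebra.ofId k R).comp eps

variable {k A : Type u} [Field k] [CommRing A] [Algebra k A]

/-- `D` lies in the tangent space `Der_k(A, k)` of the rack at `e`: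
`D (f g) = D f * ε g + ε f * D g`. -/
def AffineRack.IsTangent (Q : AffineRack k A) (D : A →ₗ[k] k) : Prop :=
  ∀ f g, D (f * g) = D f * Q.eps g + Q.eps f * D g

/-- The bracket `[D, E] = (D ⊗ E) ∘ ∇` of the Leibniz algebra of `Q` (defined here for all
functionals `D` and `E` on `A`; by `brFun_mem` and `brFun_leibniz` below it makes
`Der_k(A, k)` a Leibniz algebra). -/
noncomputable def AffineRack.brFun (Q : AffineRack k A) (D E : A →ₗ[k] k) : A →ₗ[k] k :=
  (LinearMap.mul' k k ∘ₗ TensorProduct.map D E) ∘ₗ Q.nabla.toLinearMap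

/-- `(D ⊗ E) (u v)` for two elements `u, v` of `A ⊗ A`, when `D` and `E` are derivations at
the point `e`. -/
theorem map_mul_aux (e : A →ₐ[k] k) {D E : A →ₗ[k] k}
    (hD : ∀ f g, D (f * g) = D f * e g + e f * D g)
    (hE : ∀ f g, E (f * g) = E f * e g + e f * E g) (u v : A ⊗[k] A) :
    LinearMap.mul' k k (TensorProduct.map D E (u * v)) =
      LinearMap.mul' k k (TensorProduct.map D E u) *
          LinearMap.mul' k k (TensorProduct.map e.toLinearMap e.toLinearMap v) +
        LinearMap.mul' k k (TensorProduct.map D e.toLinearMap u) *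
          LinearMap.mul' k k (TensorProduct.map e.toLinearMap E v) +
        LinearMap.mul' k k (TensorProduct.map e.toLinearMap E u) *
          LinearMap.mul' k k (TensorProduct.map D e.toLinearMap v) +
        LinearMap.mul' k k (TensorProduct.map e.toLinearMap e.toLinearMap u) *
          LinearMap.mul' k k (TensorProduct.map D E v) := by
  induction u using TensorProduct.induction_on with
  | zero => simp
  | add u₁ u₂ h₁ h₂ =>
    simp only [add_mul, map_add, h₁, h₂]
    ring
  | tmul a b =>
    induction v using TensorProduct.induction_on with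
    | zero => simp
    | add v₁ v₂ h₁ h₂ =>
      simp only [mul_add, map_add, h₁, h₂]
      ring
    | tmul c d =>
      simp only [Algebra.TensorProduct.tmul_mul_tmul, TensorProduct.map_tmul,
        LinearMap.mul'_apply, hD, hE, AlgHom.toLinearMap_apply]
      ring

/-- evaluating one slot of `∇ f` with `D` and the other at `e`, as a value of a point -/
theorem AffineRack.map_unit_right (Q : AffineRack k A) (D : A →ₗ[k] k) (f : A) :
    LinearMap.mul' k k (TensorProduct.map D Q.eps.toLinearMap (Q.nabla f)) = D 1 * Q.eps f := by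
  have h := Q.unit_right A (AlgHom.id k A)
  have h1 : (opPt Q.nabla (AlgHom.id k A) ((Algebra.ofId k A).comp Q.eps)) f =
      ((Algebra.ofId k A).comp Q.eps) f := by rw [h]
  have key : ∀ u : A ⊗[k] A, LinearMap.mul' k k (TensorProduct.map D Q.eps.toLinearMap u) =
      D (Algebra.TensorProduct.productMap (AlgHom.id k A) ((Algebra.ofId k A).comp Q.eps) u) := by
    intro u
    induction u using TensorProduct.induction_on with
    | zero => simp
    | add u₁ u₂ h₁ h₂ => simp only [map_add, h₁, h₂]
    | tmul a b =>
      simp only [TensorProduct.map_tmul, LinearMap.mul'_apply, AlgHom.toLinearMap_apply,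
        Algebra.TensorProduct.productMap_apply_tmul, AlgHom.coe_id, id_eq, AlgHom.comp_apply,
        Algebra.ofId_apply]
      rw [mul_comm a, ← Algebra.smul_def, map_smul, smul_eq_mul, mul_comm]
  rw [key]
  have h2 : Algebra.TensorProduct.productMap (AlgHom.id k A) ((Algebra.ofId k A).comp Q.eps)
      (Q.nabla f) = algebraMap k A (Q.eps f) := h1
  rw [h2, Algebra.algebraMap_eq_smul_one, map_smul, smul_eq_mul, mul_comm]

theorem AffineRack.map_eps_eps (Q : AffineRack k A) (f : A) :
    LinearMap.mul' k k (TensorProduct.map Q.eps.toLinearMap Q.eps.toLinearMap (Q.nabla f)) =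
      Q.eps f := by
  rw [Q.map_unit_right]
  simp

/-- The bracket of two tangent vectors is a tangent vector. -/
theorem AffineRack.brFun_mem (Q : AffineRack k A) {D E : A →ₗ[k] k} (hD : Q.IsTangent D)
    (hE : Q.IsTangent E) : Q.IsTangent (Q.brFun D E) := by
  intro f g
  have hD1 : D 1 = 0 := by
    have := hD 1 1
    simp only [mul_one, map_one, one_mul] at this
    linear_combination -this
  have h := map_mul_aux Q.eps hD hE (Q.nabla f) (Q.nabla g)
  rw [Q.map_unit_right D f, Q.map_unit_right D g, Q.map_eps_eps, Q.map_eps_eps, hD1] at h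
  simp only [AffineRack.brFun, LinearMap.comp_apply, AlgHom.toLinearMap_apply, map_mul]
  rw [h]
  ring


theorem AffineRack.map_unit_left (Q : AffineRack k A) (D : A →ₗ[k] k) (f : A) :
    LinearMap.mul' k k (TensorProduct.map Q.eps.toLinearMap D (Q.nabla f)) = D f := by
  have h := Q.unit_left A (AlgHom.id k A)
  have h1 : (opPt Q.nabla ((Algebra.ofId k A).comp Q.eps) (AlgHom.id k A)) f =
      (AlgHom.id k A) f := by rw [h]
  have key : ∀ u : A ⊗[k] A, LinearMap.mul' k k (TensorProduct.map Q.eps.toLinearMap D u) =
      D (Algebra.TensorProduct.productMap ((Algebra.ofId k A).comp Q.eps) (AlgHom.id k A) u) := by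
    intro u
    induction u using TensorProduct.induction_on with
    | zero => simp
    | add u₁ u₂ h₁ h₂ => simp only [map_add, h₁, h₂]
    | tmul a b =>
      simp only [TensorProduct.map_tmul, LinearMap.mul'_apply, AlgHom.toLinearMap_apply,
        Algebra.TensorProduct.productMap_apply_tmul, AlgHom.coe_id, id_eq, AlgHom.comp_apply,
        Algebra.ofId_apply]
      rw [← Algebra.smul_def, map_smul, smul_eq_mul]
  rw [key]
  exact congrArg D h1

/-- the functional `D ⊗ (E ⊗ F)` on `A ⊗ (A ⊗ A)` -/
noncomputable def tri (D E F : A →ₗ[k] k) : A ⊗[k] (A ⊗[k] A) →ₗ[k] k :=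
  LinearMap.mul' k k ∘ₗ TensorProduct.map D (LinearMap.mul' k k ∘ₗ TensorProduct.map E F)

theorem tri_tmul (D E F : A →ₗ[k] k) (a b c : A) :
    tri D E F (a ⊗ₜ (b ⊗ₜ c)) = D a * (E b * F c) := by
  simp [tri]

/-- the three generic points of `Spec A` -/
noncomputable def pt1 : A →ₐ[k] A ⊗[k] (A ⊗[k] A) := Algebra.TensorProduct.includeLeft
noncomputable def pt2 : A →ₐ[k] A ⊗[k] (A ⊗[k] A) :=
  Algebra.TensorProduct.includeRight.comp Algebra.TensorProduct.includeLeft
noncomputable def pt3 : A →ₐ[k] A ⊗[k] (A ⊗[k] A) :=
  Algebra.TensorProduct.includeRight.comp Algebra.TensorProduct.includeRight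

theorem tri_aux1 (D E F : A →ₗ[k] k) (e : A →ₐ[k] k)
    (hD : ∀ f g, D (f * g) = D f * e g + e f * D g) (u v : A ⊗[k] A) :
    tri D E F (Algebra.TensorProduct.productMap pt1 pt2 u *
      Algebra.TensorProduct.productMap pt1 pt3 v) =
      LinearMap.mul' k k (TensorProduct.map D E u) *
        LinearMap.mul' k k (TensorProduct.map e.toLinearMap F v) +
      LinearMap.mul' k k (TensorProduct.map e.toLinearMap E u) *
        LinearMap.mul' k k (TensorProduct.map D F v) := by
  induction u using TensorProduct.induction_on with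
  | zero => simp
  | add u₁ u₂ h₁ h₂ =>
    simp only [add_mul, map_add, h₁, h₂]
    ring
  | tmul a b =>
    induction v using TensorProduct.induction_on with
    | zero => simp
    | add v₁ v₂ h₁ h₂ =>
      simp only [mul_add, map_add, h₁, h₂]
      ring
    | tmul c d =>
      simp only [pt1, pt2, pt3, Algebra.TensorProduct.productMap_apply_tmul,
        AlgHom.comp_apply, Algebra.TensorProduct.includeLeft_apply,
        Algebra.TensorProduct.includeRight_apply, Algebra.TensorProduct.tmul_mul_tmul, mul_one,
        one_mul, tri_tmul, TensorProduct.map_tmul, LinearMap.mul'_apply, hD,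
        AlgHom.toLinearMap_apply]
      ring

/-- The Leibniz identity for the bracket of tangent vectors. -/
theorem AffineRack.brFun_leibniz (Q : AffineRack k A) {D E F : A →ₗ[k] k} (hD : Q.IsTangent D) :
    Q.brFun D (Q.brFun E F) = Q.brFun (Q.brFun D E) F + Q.brFun E (Q.brFun D F) := by
  apply LinearMap.ext
  intro f
  have h := Q.selfDistrib _ (pt1 (k := k) (A := A)) pt2 pt3
  have h1 : tri D E F ((opPt Q.nabla pt1 (opPt Q.nabla pt2 pt3)) f) =
      tri D E F ((opPt Q.nabla (opPt Q.nabla pt1 pt2) (opPt Q.nabla pt1 pt3)) f) := by rw [h]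
  have hl : ∀ u : A ⊗[k] A, tri D E F (Algebra.TensorProduct.productMap pt1
      (opPt Q.nabla pt2 pt3) u) = LinearMap.mul' k k (TensorProduct.map D (Q.brFun E F) u) := by
    intro u
    induction u using TensorProduct.induction_on with
    | zero => simp
    | add u₁ u₂ h₁ h₂ => simp only [map_add, h₁, h₂]
    | tmul a b =>
      simp only [Algebra.TensorProduct.productMap_apply_tmul, TensorProduct.map_tmul,
        LinearMap.mul'_apply, opPt, AlgHom.comp_apply, AffineRack.brFun, LinearMap.comp_apply,
        AlgHom.toLinearMap_apply]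
      generalize Q.nabla b = w
      induction w using TensorProduct.induction_on with
      | zero => simp
      | add u₁ u₂ h₁ h₂ => simp only [mul_add, map_add, h₁, h₂]
      | tmul c d =>
        simp only [pt1, pt2, pt3, Algebra.TensorProduct.productMap_apply_tmul,
          AlgHom.comp_apply, Algebra.TensorProduct.includeLeft_apply,
          Algebra.TensorProduct.includeRight_apply, Algebra.TensorProduct.tmul_mul_tmul, mul_one,
          one_mul, tri_tmul, TensorProduct.map_tmul, LinearMap.mul'_apply]
  have hr : ∀ u : A ⊗[k] A, tri D E F (Algebra.TensorProduct.productMap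
      (opPt Q.nabla pt1 pt2) (opPt Q.nabla pt1 pt3) u) =
      LinearMap.mul' k k (TensorProduct.map (Q.brFun D E) F u) +
      LinearMap.mul' k k (TensorProduct.map E (Q.brFun D F) u) := by
    intro u
    induction u using TensorProduct.induction_on with
    | zero => simp
    | add u₁ u₂ h₁ h₂ =>
      simp only [map_add, h₁, h₂]
      ring
    | tmul a b =>
      simp only [Algebra.TensorProduct.productMap_apply_tmul, opPt, AlgHom.comp_apply]
      rw [tri_aux1 D E F Q.eps hD, Q.map_unit_left, Q.map_unit_left]
      simp only [TensorProduct.map_tmul, LinearMap.mul'_apply, AffineRack.brFun,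
        LinearMap.comp_apply, AlgHom.toLinearMap_apply]
  have e1 : (opPt Q.nabla pt1 (opPt Q.nabla pt2 pt3)) f =
      Algebra.TensorProduct.productMap pt1 (opPt Q.nabla pt2 pt3) (Q.nabla f) := rfl
  have e2 : (opPt Q.nabla (opPt Q.nabla pt1 pt2) (opPt Q.nabla pt1 pt3)) f =
      Algebra.TensorProduct.productMap (opPt Q.nabla pt1 pt2) (opPt Q.nabla pt1 pt3)
        (Q.nabla f) := rfl
  rw [e1, e2, hl, hr] at h1
  exact h1

/-- A Leibniz algebra `q` is algebraic if it is isomorphic to the Leibniz algebra of some affine
algebraic rack `Q = Spec A`, that is, there is an injective linear map `φ` from `q` to the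
functionals on `A`, with image `Der_k(A, k)`, such that `φ [x, y] = (φ x ⊗ φ y) ∘ ∇`. -/
def LeibnizAlg.IsAlgebraic {k q : Type u} [Field k] [AddCommGroup q] [Module k q]
    (L : LeibnizAlg k q) : Prop :=
  ∃ (A : Type u) (_ : CommRing A) (_ : Algebra k A) (Q : AffineRack k A)
    (φ : q →ₗ[k] A →ₗ[k] k), Function.Injective φ ∧ (∀ D, (∃ x, φ x = D) ↔ Q.IsTangent D) ∧
      ∀ x y, φ (L.br x y) = Q.brFun (φ x) (φ y)

theorem AffineRack.IsTangent.one {Q : AffineRack k A} {D : A →ₗ[k] k} (h : Q.IsTangent D) :
    D 1 = 0 := by
  have := h 1 1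
  simp only [mul_one, map_one, one_mul] at this
  linear_combination -this

/-- A vector space that maps injectively to the tangent space of an affine algebraic rack is
finite-dimensional. -/
theorem AffineRack.finite_of_injective (Q : AffineRack k A) {q : Type u} [AddCommGroup q]
    [Module k q] (φ : q →ₗ[k] A →ₗ[k] k) (hφ : Function.Injective φ)
    (hQ : ∀ x, Q.IsTangent (φ x)) : Module.Finite k q := by
  obtain ⟨s, hs⟩ := Q.finiteType.out
  let T : q →ₗ[k] (s → k) :=
    { toFun := fun D i => φ D i
      map_add' := fun D E => by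
        funext i
        simp
      map_smul' := fun c D => by
        funext i
        simp }
  have hT : Function.Injective T := by
    rw [injective_iff_map_eq_zero]
    intro D hD
    rw [← map_eq_zero_iff φ hφ]
    apply LinearMap.ext
    intro a
    have ha : a ∈ Algebra.adjoin k (s : Set A) := by rw [hs]; trivial
    induction ha using Algebra.adjoin_induction with
    | mem x hx => exact congrFun hD ⟨x, hx⟩
    | algebraMap r =>
      rw [Algebra.algebraMap_eq_smul_one, map_smul, (hQ D).one, smul_zero]
      rfl
    | add x y _ _ hx hy =>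
      rw [map_add, hx, hy]
      simp
    | mul x y _ _ hx hy =>
      rw [hQ D x y, hx, hy]
      simp
  exact Module.Finite.of_injective T hT

section construction

variable {n : ℕ} (c : Fin n → Fin n → Fin n → k)

/-- the ring `k ⊕ k^n` with `k^n * k^n = 0` -/
abbrev Loc (k : Type u) [Field k] (n : ℕ) : Type u := TrivSqZeroExt k (Fin n → k)

/-- the coordinate functions -/
noncomputable def X (k : Type u) [Field k] {n : ℕ} (l : Fin n) : Loc k n :=
  TrivSqZeroExt.inr (Pi.single l 1)

theorem X_mul_X (l m : Fin n) : X k l * X k m = 0 := by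
  simp [X]

theorem inr_eq_sum (v : Fin n → k) :
    (TrivSqZeroExt.inr v : Loc k n) = ∑ l, v l • X k l := by
  have h : v = ∑ l, v l • (Pi.single l (1 : k) : Fin n → k) := by
    conv_lhs => rw [← Finset.univ_sum_single v]
    refine Finset.sum_congr rfl fun l _ => ?_
    rw [← Pi.single_smul, smul_eq_mul, mul_one]
  conv_lhs => rw [h]
  have := map_sum (TrivSqZeroExt.inrHom k (Fin n → k)) (fun l => v l • (Pi.single l (1 : k) : Fin n → k))
    Finset.univ
  simp only [TrivSqZeroExt.inrHom_apply, TrivSqZeroExt.inr_smul] at this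
  exact this

theorem algHom_ext_X {R : Type u} [CommRing R] [Algebra k R] {x y : Loc k n →ₐ[k] R}
    (h : ∀ l, x (X k l) = y (X k l)) : x = y := by
  apply TrivSqZeroExt.algHom_ext
  intro v
  rw [inr_eq_sum, map_sum, map_sum]
  refine Finset.sum_congr rfl fun l _ => ?_
  rw [map_smul, map_smul, h]

theorem pt_mul {R : Type u} [CommRing R] [Algebra k R] (x : Loc k n →ₐ[k] R) (l m : Fin n) :
    x (X k l) * x (X k m) = 0 := by
  rw [← map_mul, X_mul_X, map_zero]

/-- the image of the coordinate function `X_l` under the pullback of `y + t [x, y]` (for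
`t = 1`) or of `y + t [z, y]`, with the two factors exchanged when `sw` is true -/
noncomputable def coimg (t : k) (sw : Bool) (l : Fin n) : Loc k n ⊗[k] Loc k n :=
  if sw then X k l ⊗ₜ 1 + ∑ i, ∑ j, (t * c i j l) • (X k j ⊗ₜ X k i)
  else 1 ⊗ₜ X k l + ∑ i, ∑ j, (t * c i j l) • (X k i ⊗ₜ X k j)

theorem coimg_mul (t : k) (sw : Bool) (l m : Fin n) :
    coimg c t sw l * coimg c t sw m = 0 := by
  cases sw
  · simp only [coimg, Bool.false_eq_true, if_false, add_mul, mul_add, Finset.sum_mul,
      Finset.mul_sum, smul_mul_assoc, mul_smul_comm, Algebra.TensorProduct.tmul_mul_tmul,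
      X_mul_X, one_mul, mul_one, TensorProduct.tmul_zero, smul_zero,
      Finset.sum_const_zero, add_zero]
  · simp only [coimg, if_true, add_mul, mul_add, Finset.sum_mul,
      Finset.mul_sum, smul_mul_assoc, mul_smul_comm, Algebra.TensorProduct.tmul_mul_tmul,
      X_mul_X, one_mul, mul_one, TensorProduct.zero_tmul, TensorProduct.tmul_zero, smul_zero,
      Finset.sum_const_zero, add_zero]

/-- the pullback of the operation -/
noncomputable def coop (t : k) (sw : Bool) : Loc k n →ₐ[k] Loc k n ⊗[k] Loc k n :=
  TrivSqZeroExt.liftEquivOfComm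
    ⟨Fintype.linearCombination k (coimg c t sw), by
      intro v w
      simp only [Fintype.linearCombination_apply, Finset.sum_mul, Finset.mul_sum,
        smul_mul_assoc, mul_smul_comm, coimg_mul, smul_zero, Finset.sum_const_zero]⟩

theorem coop_X (t : k) (sw : Bool) (l : Fin n) : coop c t sw (X k l) = coimg c t sw l := by
  simp [coop, X, Fintype.linearCombination_apply]

theorem opPt_coop_false {R : Type u} [CommRing R] [Algebra k R] (t : k) (x y : Loc k n →ₐ[k] R)
    (l : Fin n) : opPt (coop c t false) x y (X k l) =
      y (X k l) + ∑ i, ∑ j, (t * c i j l) • (x (X k i) * y (X k j)) := by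
  simp only [opPt, AlgHom.comp_apply, coop_X, coimg, Bool.false_eq_true, if_false, map_add,
    map_sum, map_smul, Algebra.TensorProduct.productMap_apply_tmul, map_one, one_mul]

theorem opPt_coop_true {R : Type u} [CommRing R] [Algebra k R] (t : k) (x y : Loc k n →ₐ[k] R)
    (l : Fin n) : opPt (coop c t true) y x (X k l) =
      y (X k l) + ∑ i, ∑ j, (t * c i j l) • (x (X k i) * y (X k j)) := by
  simp only [opPt, AlgHom.comp_apply, coop_X, coimg, if_true, map_add,
    map_sum, map_smul, Algebra.TensorProduct.productMap_apply_tmul, map_one, mul_one]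
  refine congrArg₂ (· + ·) rfl (Finset.sum_congr rfl fun i _ => Finset.sum_congr rfl fun j _ => ?_)
  rw [mul_comm (y _)]


variable {R : Type u} [CommRing R] [Algebra k R]

/-- the bracket with structure constants `c` on `R^n` -/
noncomputable def B (x y : Fin n → R) (l : Fin n) : R :=
  ∑ i, ∑ j, algebraMap k R (c i j l) * (x i * y j)

theorem B_add_left (x x' y : Fin n → R) : B c (x + x') y = B c x y + B c x' y := by
  funext l
  simp only [B, Pi.add_apply, add_mul, mul_add, Finset.sum_add_distrib]

theorem B_add_right (x y y' : Fin n → R) : B c x (y + y') = B c x y + B c x y' := by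
  funext l
  simp only [B, Pi.add_apply, mul_add, Finset.sum_add_distrib]

theorem B_neg_right (x y : Fin n → R) : B c x (-y) = - B c x y := by
  funext l
  simp only [B, Pi.neg_apply, mul_neg, Finset.sum_neg_distrib]

theorem B_neg_left (x y : Fin n → R) : B c (-x) y = - B c x y := by
  funext l
  simp only [B, Pi.neg_apply, mul_neg, neg_mul, Finset.sum_neg_distrib]

theorem B_B_right (x y z : Fin n → R) (l : Fin n) :
    B c x (B c y z) l = ∑ i, ∑ j, ∑ p,
      algebraMap k R (∑ m, c j p m * c i m l) * (x i * y j * z p) := by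
  simp only [B, Finset.mul_sum, map_sum, map_mul, Finset.sum_mul]
  refine Finset.sum_congr rfl fun i _ => ?_
  rw [Finset.sum_comm]
  refine Finset.sum_congr rfl fun j _ => ?_
  rw [Finset.sum_comm]
  refine Finset.sum_congr rfl fun p _ => Finset.sum_congr rfl fun m _ => ?_
  ring

theorem B_B_left (x y z : Fin n → R) (l : Fin n) :
    B c (B c x y) z l = ∑ i, ∑ j, ∑ p,
      algebraMap k R (∑ m, c i j m * c m p l) * (x i * y j * z p) := by
  simp only [B, Finset.mul_sum, map_sum, map_mul, Finset.sum_mul]
  rw [Finset.sum_comm]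
  have h : ∀ f : Fin n → Fin n → Fin n → Fin n → R,
      ∑ p, ∑ m, ∑ i, ∑ j, f p m i j = ∑ i, ∑ j, ∑ p, ∑ m, f p m i j := by
    intro f
    have h1 : ∑ p, ∑ m, ∑ i, ∑ j, f p m i j = ∑ p, ∑ i, ∑ j, ∑ m, f p m i j := by
      refine Finset.sum_congr rfl fun p _ => ?_
      rw [Finset.sum_comm]
      refine Finset.sum_congr rfl fun i _ => ?_
      rw [Finset.sum_comm]
    rw [h1, Finset.sum_comm]
    refine Finset.sum_congr rfl fun i _ => ?_
    rw [Finset.sum_comm]
  rw [h]
  refine Finset.sum_congr rfl fun i _ => Finset.sum_congr rfl fun j _ =>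
    Finset.sum_congr rfl fun p _ => Finset.sum_congr rfl fun m _ => ?_
  ring

/-- the Leibniz identity for structure constants -/
def HC (c : Fin n → Fin n → Fin n → k) : Prop := ∀ i j p l,
  ∑ m, c j p m * c i m l = ∑ m, c i j m * c m p l + ∑ m, c i p m * c j m l

theorem B_leibniz (hc : HC c) (x y z : Fin n → R) :
    B c x (B c y z) = B c (B c x y) z + B c y (B c x z) := by
  funext l
  rw [Pi.add_apply, B_B_right, B_B_left, B_B_right]
  have h : ∑ i, ∑ j, ∑ p, algebraMap k R (∑ m, c j p m * c i m l) * (y i * x j * z p) =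
      ∑ i, ∑ j, ∑ p, algebraMap k R (∑ m, c i p m * c j m l) * (x i * y j * z p) := by
    rw [Finset.sum_comm]
    refine Finset.sum_congr rfl fun i _ => Finset.sum_congr rfl fun j _ =>
      Finset.sum_congr rfl fun p _ => ?_
    ring
  rw [h]
  simp only [← Finset.sum_add_distrib]
  refine Finset.sum_congr rfl fun i _ => Finset.sum_congr rfl fun j _ =>
    Finset.sum_congr rfl fun p _ => ?_
  rw [hc i j p l, map_add]
  ring

theorem B_zero_right (x : Fin n → R) : B c x 0 = 0 := by
  funext l
  simp [B]

theorem B_zero_left (x : Fin n → R) : B c 0 x = 0 := by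
  funext l
  simp [B]

theorem B_self_self {x : Fin n → R} (hx : ∀ i j, x i * x j = 0) (y : Fin n → R) :
    B c x (B c x y) = 0 := by
  funext l
  rw [B_B_right]
  simp [hx]

theorem B_B_B {x : Fin n → R} (hx : ∀ i j, x i * x j = 0) (y z : Fin n → R) :
    B c (B c x y) (B c x z) = 0 := by
  funext l
  simp only [B, Pi.zero_apply]
  refine Finset.sum_eq_zero fun i _ => Finset.sum_eq_zero fun j _ => ?_
  have : (∑ i', ∑ j', algebraMap k R (c i' j' i) * (x i' * y j')) *
      (∑ i', ∑ j', algebraMap k R (c i' j' j) * (x i' * z j')) = 0 := by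
    simp only [Finset.sum_mul, Finset.mul_sum]
    refine Finset.sum_eq_zero fun a _ => Finset.sum_eq_zero fun b _ =>
      Finset.sum_eq_zero fun a' _ => Finset.sum_eq_zero fun b' _ => ?_
    linear_combination (algebraMap k R (c a' b' i) * y b' * algebraMap k R (c a b j) * z b) *
      hx a' a
  rw [this, mul_zero]

/-- the coordinates of a point -/
noncomputable def cd (x : Loc k n →ₐ[k] R) : Fin n → R := fun l => x (X k l)

theorem cd_inj {x y : Loc k n →ₐ[k] R} (h : cd x = cd y) : x = y :=
  algHom_ext_X fun l => congrFun h l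

theorem cd_nabla (x y : Loc k n →ₐ[k] R) :
    cd (opPt (coop c 1 false) x y) = cd y + B c (cd x) (cd y) := by
  funext l
  simp only [cd, opPt_coop_false, Pi.add_apply, B, one_mul, Algebra.smul_def]

theorem cd_nablaInv (x y : Loc k n →ₐ[k] R) :
    cd (opPt (coop c (-1) true) y x) = cd y + -B c (cd x) (cd y) := by
  funext l
  simp only [cd, opPt_coop_true, Pi.add_apply, Pi.neg_apply, B, neg_mul, one_mul,
    Algebra.smul_def, map_neg, Finset.sum_neg_distrib]

theorem cd_mul (x : Loc k n →ₐ[k] R) (i j : Fin n) : cd x i * cd x j = 0 := pt_mul x i j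

/-- the unit point -/
noncomputable def ep : Loc k n →ₐ[k] k := TrivSqZeroExt.fstHom k k (Fin n → k)

theorem cd_ep : cd ((Algebra.ofId k R).comp (ep (k := k) (n := n))) = 0 := by
  funext l
  simp [cd, ep, X]

theorem finiteType_loc : Algebra.FiniteType k (Loc k n) := by
  have : Module.Finite k (Loc k n) := inferInstanceAs (Module.Finite k (k × (Fin n → k)))
  infer_instance

/-- the rack with `x ▷ y = y + [x, y]` -/
noncomputable def rack (hc : HC c) : AffineRack k (Loc k n) where
  finiteType := finiteType_loc
  nabla := coop c 1 false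
  nablaInv := coop c (-1) true
  eps := ep
  inv_left := by
    intro R _ _ x y
    apply cd_inj
    rw [cd_nablaInv, cd_nabla, B_add_right, B_self_self c (cd_mul x)]
    simp
  inv_right := by
    intro R _ _ x y
    apply cd_inj
    rw [cd_nabla, cd_nablaInv, B_add_right, B_neg_right, B_self_self c (cd_mul x)]
    simp
  selfDistrib := by
    intro R _ _ x y z
    apply cd_inj
    simp only [cd_nabla, B_add_right, B_add_left, B_B_B c (cd_mul x)]
    rw [B_leibniz c hc (cd x) (cd y) (cd z)]
    abel
  selfDistribInv := by
    intro R _ _ x y z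
    apply cd_inj
    simp only [cd_nablaInv, B_add_right, B_add_left, B_neg_right, B_neg_left,
      B_B_B c (cd_mul z)]
    rw [B_leibniz c hc (cd z) (cd y) (cd x)]
    abel
  unit_left := by
    intro R _ _ x
    apply cd_inj
    rw [cd_nabla, cd_ep, B_zero_left, add_zero]
  unit_right := by
    intro R _ _ x
    apply cd_inj
    rw [cd_nabla, cd_ep, B_zero_right, add_zero]


/-- the tangent vectors of the rack are given by their values on the coordinate functions -/
noncomputable def tan (k : Type u) [Field k] (n : ℕ) :
    (Fin n → k) →ₗ[k] (Loc k n →ₗ[k] k) where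
  toFun v := (∑ l, v l • LinearMap.proj l) ∘ₗ TrivSqZeroExt.sndHom k (Fin n → k)
  map_add' v w := by
    simp [add_smul, Finset.sum_add_distrib, LinearMap.add_comp]
  map_smul' r v := by
    apply LinearMap.ext
    intro a
    simp [mul_assoc, Finset.mul_sum]

theorem tan_X (v : Fin n → k) (l : Fin n) : tan k n v (X k l) = v l := by
  simp [tan, X, Pi.single_apply]

theorem tan_one (v : Fin n → k) : tan k n v 1 = 0 := by
  simp [tan]

theorem ext_X {D E : Loc k n →ₗ[k] k} (h1 : D 1 = E 1) (h : ∀ l, D (X k l) = E (X k l)) :
    D = E := by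
  apply LinearMap.ext
  intro a
  have ha : a = TrivSqZeroExt.fst a • (1 : Loc k n) + ∑ l, TrivSqZeroExt.snd a l • X k l := by
    rw [← inr_eq_sum]
    ext
    · simp
    · simp
  rw [ha]
  simp only [map_add, map_smul, map_sum, h1, h]

theorem isTangent_tan (hc : HC c) (v : Fin n → k) : (rack c hc).IsTangent (tan k n v) := by
  intro f g
  simp only [tan, rack, ep, LinearMap.coe_mk, AddHom.coe_mk, LinearMap.comp_apply,
    TrivSqZeroExt.sndHom_apply,
    TrivSqZeroExt.snd_mul, LinearMap.sum_apply, LinearMap.smul_apply, LinearMap.proj_apply,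
    Pi.add_apply, Pi.smul_apply, smul_eq_mul, MulOpposite.smul_eq_mul_unop,
    MulOpposite.unop_op, TrivSqZeroExt.fstHom_apply, Finset.mul_sum, Finset.sum_mul]
  rw [← Finset.sum_add_distrib]
  refine Finset.sum_congr rfl fun l _ => ?_
  ring

theorem exists_tan (hc : HC c) {D : Loc k n →ₗ[k] k} (hD : (rack c hc).IsTangent D) :
    tan k n (fun l => D (X k l)) = D := by
  apply ext_X
  · rw [tan_one, hD.one]
  · intro l
    rw [tan_X]

theorem br_X (hc : HC c) {D E : Loc k n →ₗ[k] k} (hD : D 1 = 0) (l : Fin n) :
    (rack c hc).brFun D E (X k l) = ∑ i, ∑ j, c i j l * (D (X k i) * E (X k j)) := by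
  have h : (rack c hc).brFun D E (X k l) =
      LinearMap.mul' k k (TensorProduct.map D E (coop c 1 false (X k l))) := rfl
  rw [h, coop_X]
  simp only [coimg, Bool.false_eq_true, if_false, map_add, map_sum, map_smul,
    TensorProduct.map_tmul, LinearMap.mul'_apply, hD, zero_mul, zero_add, one_mul,
    smul_eq_mul]

end construction

/-- the bracket as a bilinear map -/
noncomputable def LeibnizAlg.lin {k q : Type u} [Field k] [AddCommGroup q] [Module k q]
    (L : LeibnizAlg k q) : q →ₗ[k] q →ₗ[k] q :=
  LinearMap.mk₂ k L.br L.add_left L.smul_left L.add_right L.smul_right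

/-- **A Leibniz algebra over a field `k` is algebraic if and only if it is finite-dimensional.** -/
theorem result (k q : Type u) [Field k] [AddCommGroup q] [Module k q] (L : LeibnizAlg k q) :
    L.IsAlgebraic ↔ Module.Finite k q := by
  constructor
  · rintro ⟨A, _, _, Q, φ, hφ, hD, -⟩
    exact Q.finite_of_injective φ hφ fun x => (hD _).1 ⟨x, rfl⟩
  · intro hfin
    let b := Module.finBasis k q
    let c : Fin (Module.finrank k q) → Fin (Module.finrank k q) → Fin (Module.finrank k q) → k :=
      fun i j l => b.repr (L.br (b i) (b j)) l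
    have hbr : ∀ x y l, b.repr (L.br x y) l =
        ∑ i, ∑ j, c i j l * (b.repr x i * b.repr y j) := by
      intro x y l
      have h0 : L.br x y = L.lin x y := rfl
      rw [h0]
      conv_lhs => rw [← b.sum_repr x, ← b.sum_repr y]
      simp only [map_sum, map_smul, LinearMap.sum_apply, LinearMap.smul_apply,
        Finsupp.coe_finsetSum, Finset.sum_apply, Finsupp.smul_apply, smul_eq_mul, Finset.mul_sum]
      rw [Finset.sum_comm]
      refine Finset.sum_congr rfl fun i _ => Finset.sum_congr rfl fun j _ => ?_
      have h1 : L.lin (b i) (b j) = L.br (b i) (b j) := rfl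
      rw [h1]
      simp only [c]
      ring
    have hrepr : ∀ (i j : Fin (Module.finrank k q)), b.repr (b i) j = if i = j then 1 else 0 := by
      intro i j
      rw [b.repr_self, Finsupp.single_apply]
    have hc : HC c := by
      intro i j p l
      have h := congrArg (fun v => b.repr v l) (L.leibniz (b i) (b j) (b p))
      simp only [map_add, Finsupp.add_apply] at h
      rw [hbr (b i) (L.br (b j) (b p)), hbr (L.br (b i) (b j)) (b p),
        hbr (b j) (L.br (b i) (b p))] at h
      simp only [hrepr, ite_mul, mul_ite, mul_one, mul_zero, one_mul, zero_mul,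
        Finset.sum_ite_eq, Finset.mem_univ, if_true] at h
      have e1 : ∀ (i : Fin (Module.finrank k q)) (f : Fin (Module.finrank k q) →
          Fin (Module.finrank k q) → k), (∑ x, ∑ y, if i = x then f x y else 0) = ∑ y, f i y := by
        intro i f
        rw [Finset.sum_comm]
        simp
      rw [e1, e1] at h
      calc ∑ m, c j p m * c i m l = ∑ m, c i m l * (b.repr (L.br (b j) (b p)) m) :=
            Finset.sum_congr rfl fun m _ => mul_comm _ _
        _ = _ := h
        _ = _ := congrArg₂ (· + ·) (Finset.sum_congr rfl fun m _ => mul_comm _ _)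
            (Finset.sum_congr rfl fun m _ => mul_comm _ _)
    have e2 : ∀ (z : q) (l : Fin (Module.finrank k q)),
        (tan k _ ∘ₗ b.equivFun.toLinearMap) z (X k l) = b.repr z l := by
      intro z l
      rw [LinearMap.comp_apply, tan_X]
      rfl
    refine ⟨Loc k (Module.finrank k q), inferInstance, inferInstance, rack c hc,
      tan k _ ∘ₗ b.equivFun.toLinearMap, ?_, ?_, ?_⟩
    · intro x y hxy
      apply b.repr.injective
      ext l
      rw [← e2 x l, ← e2 y l, hxy]
    · intro D
      constructor
      · rintro ⟨x, rfl⟩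
        exact isTangent_tan c hc _
      · intro hD
        refine ⟨b.equivFun.symm (fun l => D (X k l)), ?_⟩
        rw [LinearMap.comp_apply]
        have : b.equivFun.toLinearMap (b.equivFun.symm (fun l => D (X k l))) =
            fun l => D (X k l) := b.equivFun.apply_symm_apply _
        rw [this]
        exact exists_tan c hc hD
    · intro x y
      have hx1 : (tan k _ ∘ₗ b.equivFun.toLinearMap) x 1 = 0 := tan_one _
      apply ext_X
      · have h1 := ((rack c hc).brFun_mem (isTangent_tan c hc (b.equivFun x))
          (isTangent_tan c hc (b.equivFun y))).one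
        exact (tan_one _).trans h1.symm
      · intro l
        rw [br_X c hc hx1, e2, hbr]
        simp only [e2]

end Pool.Agent.Results.MP_133c3f_al.AlgebraicIffFinite
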